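import Pool.Agent.Helper58.RS.Closure

/-!
# Signal senders for 3-connected graphs: definitions and module statements

Everything is elementary: distances are replaced by Lipschitz height functions, large girth by
sparseness (every small family of hyperedges has a member meeting the others in at most one point).
-/

set_option autoImplicit false

namespace Pool.Agent.Helper77.SND

/-! ## Copies, good colourings, 3-connectivity -/

/-- `f` is a copy of `H` in `G`. -/
def Copy {m : ℕ} {V : Type} (H : SimpleGraph (Fin m)) (G : SimpleGraph V) (f : Fin m → V) : Prop :=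
  Function.Injective f ∧ ∀ x y, H.Adj x y → G.Adj (f x) (f y)

/-- The colouring `c` of the edges of `G` has no monochromatic copy of `H`. -/
def Good {m : ℕ} {V : Type} (H : SimpleGraph (Fin m)) (G : SimpleGraph V) (c : Sym2 V → Bool) :
    Prop :=
  ∀ (b : Bool) (f : Fin m → V), Copy H G f → ∃ x y, H.Adj x y ∧ c s(f x, f y) ≠ b

/-- pull-back of a colouring along a map -/
def pb {V V' : Type} (c : Sym2 V' → Bool) (i : V → V') : Sym2 V → Bool :=
  fun e => c (Sym2.map i e)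

/-- 3-connectivity in the usual form. -/
def ThreeConn {m : ℕ} (H : SimpleGraph (Fin m)) : Prop :=
  4 ≤ m ∧ ∀ S : Finset (Fin m), S.card ≤ 2 → (H.induce {v | v ∉ S}).Connected

/-- at least four vertices and no separation of order at most two -/
def C3 {m : ℕ} (H : SimpleGraph (Fin m)) : Prop :=
  4 ≤ m ∧ ∀ (s : Fin m → Option Bool) (p q : Fin m), (∀ x, s x = none → x = p ∨ x = q) →
    (∃ x, s x = some true) → (∃ y, s y = some false) →
    ∃ x y, s x = some true ∧ s y = some false ∧ H.Adj x y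

/-! ## Gluing -/

/-- gluing `S` to `G` along the partial injection `τ`; shared edges of `S` are edges of `G` -/
def ST_GLUE : Prop :=
  ∀ (V W : Type) [Finite V] [Finite W] (G : SimpleGraph V) (S : SimpleGraph W) (τ : W → Option V),
    (∀ w w' v, τ w = some v → τ w' = some v → w = w') →
    (∀ w w' v v', τ w = some v → τ w' = some v' → S.Adj w w' → G.Adj v v') →
    ∃ (V' : Type) (_ : Finite V') (G' : SimpleGraph V') (i : V → V') (j : W → V'),
      Function.Injective i ∧ Function.Injective j ∧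
      (∀ w v, j w = i v ↔ τ w = some v) ∧
      (∀ z, (∃ v, z = i v) ∨ ∃ w, τ w = none ∧ z = j w) ∧
      (∀ x y, G'.Adj (i x) (i y) ↔ G.Adj x y) ∧
      (∀ w w', S.Adj w w' → G'.Adj (j w) (j w')) ∧
      (∀ w z, τ w = none → G'.Adj (j w) z → ∃ w', z = j w' ∧ S.Adj w w') ∧
      (∀ (c : Sym2 V → Bool) (d : Sym2 W → Bool),
        (∀ w w' v v', τ w = some v → τ w' = some v' → S.Adj w w' → d s(w, w') = c s(v, v')) →
        ∃ e : Sym2 V' → Bool, (∀ x y, G.Adj x y → e s(i x, i y) = c s(x, y)) ∧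
          ∀ w w', S.Adj w w' → e s(j w, j w') = d s(w, w'))

/-- 2-sum of `G` and `S` along the edges `uv` and `ab` (both edges are kept) -/
def ST_GL2 : Prop :=
  ∀ (m : ℕ) (H : SimpleGraph (Fin m)), C3 H →
    ∀ (V W : Type) [Finite V] [Finite W] (G : SimpleGraph V) (S : SimpleGraph W)
      (u v : V) (a b : W), G.Adj u v → S.Adj a b →
    ∃ (V' : Type) (_ : Finite V') (G' : SimpleGraph V') (i : V → V') (j : W → V'),
      Function.Injective i ∧ Function.Injective j ∧ j a = i u ∧ j b = i v ∧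
      (∀ w x, j w = i x → (w = a ∧ x = u) ∨ (w = b ∧ x = v)) ∧
      (∀ z, (∃ x, z = i x) ∨ ∃ w, z = j w) ∧
      (∀ z z', G'.Adj z z' → (∃ x y, z = i x ∧ z' = i y ∧ G.Adj x y) ∨
        ∃ w w', z = j w ∧ z' = j w' ∧ S.Adj w w') ∧
      (∀ x y, G.Adj x y → G'.Adj (i x) (i y)) ∧
      (∀ w w', S.Adj w w' → G'.Adj (j w) (j w')) ∧
      (∀ e : Sym2 V' → Bool, Good H G' e ↔ Good H G (pb e i) ∧ Good H S (pb e j)) ∧
      (∀ (c : Sym2 V → Bool) (d : Sym2 W → Bool), d s(a, b) = c s(u, v) →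
        ∃ e : Sym2 V' → Bool, (∀ x y, G.Adj x y → e s(i x, i y) = c s(x, y)) ∧
          ∀ w w', S.Adj w w' → e s(j w, j w') = d s(w, w'))

/-- gluing a long sender to `G` along two disjoint edges -/
def ST_GL4 : Prop :=
  ∀ (m : ℕ) (H : SimpleGraph (Fin m)), C3 H →
    ∀ (V W : Type) [Finite V] [Finite W] (G : SimpleGraph V) (S : SimpleGraph W)
      (u v u0 v0 : V) (a b p q : W) (φ : W → ℕ), G.Adj u v → G.Adj u0 v0 →
      u ≠ u0 → u ≠ v0 → v ≠ u0 → v ≠ v0 → S.Adj a b → S.Adj p q →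
      φ a = 0 → φ b = 0 → m + 2 ≤ φ p → m + 2 ≤ φ q → (∀ x y, S.Adj x y → φ x ≤ φ y + 1) →
    ∃ (V' : Type) (_ : Finite V') (G' : SimpleGraph V') (i : V → V') (j : W → V'),
      Function.Injective i ∧ Function.Injective j ∧ j a = i u ∧ j b = i v ∧ j p = i u0 ∧
      j q = i v0 ∧
      (∀ x y, G'.Adj (i x) (i y) ↔ G.Adj x y) ∧
      (∀ e : Sym2 V' → Bool, Good H G' e ↔ Good H G (pb e i) ∧ Good H S (pb e j)) ∧
      (∀ (c : Sym2 V → Bool) (d : Sym2 W → Bool), d s(a, b) = c s(u, v) →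
        d s(p, q) = c s(u0, v0) →
        ∃ e : Sym2 V' → Bool, (∀ x y, G.Adj x y → e s(i x, i y) = c s(x, y)) ∧
          ∀ w w', S.Adj w w' → e s(j w, j w') = d s(w, w'))

/-! ## Senders -/

/-- an exact sender of height `N` and sign `s` for `H` -/
def Snd {m : ℕ} (H : SimpleGraph (Fin m)) (N : ℕ) (s : Bool) : Prop :=
  ∃ (W : Type) (_ : Finite W) (S : SimpleGraph W) (a b p q : W) (φ : W → ℕ),
    S.Adj a b ∧ S.Adj p q ∧ φ a = 0 ∧ φ b = 0 ∧ N ≤ φ p ∧ N ≤ φ q ∧
    (∀ x y, S.Adj x y → φ x ≤ φ y + 1) ∧ (∃ c, Good H S c) ∧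
    ∀ c, Good H S c → ((c s(a, b) = c s(p, q)) ↔ s = true)

/-- an exact negative sender whose signal edges meet in a vertex -/
def AdjNeg {m : ℕ} (H : SimpleGraph (Fin m)) : Prop :=
  ∃ (W : Type) (_ : Finite W) (S : SimpleGraph W) (x u v : W),
    u ≠ v ∧ S.Adj x u ∧ S.Adj x v ∧ (∃ c, Good H S c) ∧
    ∀ c, Good H S c → c s(x, u) ≠ c s(x, v)

/-- a graph with a good colouring and a vertex seeing both colours in every good colouring -/
def Star {m : ℕ} (H : SimpleGraph (Fin m)) : Prop :=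
  ∃ (V : Type) (_ : Finite V) (X : SimpleGraph V) (x : V), (∃ c, Good H X c) ∧
    ∀ c, Good H X c → ∀ b : Bool, ∃ y, X.Adj x y ∧ c s(x, y) = b

def ST_CHAIN : Prop :=
  ∀ (m : ℕ) (H : SimpleGraph (Fin m)), C3 H → AdjNeg H → ∀ (N : ℕ) (s : Bool), Snd H N s

def ST_RAMS : Prop :=
  ∀ (m : ℕ) (H : SimpleGraph (Fin m)), ∃ n : ℕ, ∀ c : Sym2 (Fin n) → Bool,
    ¬ Good H (⊤ : SimpleGraph (Fin n)) c

def ST_SEP3 : Prop :=
  ∀ (m : ℕ) (H : SimpleGraph (Fin m)), ThreeConn H → C3 H

def ST_DEG : Prop :=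
  ∀ (m : ℕ) (H : SimpleGraph (Fin m)), C3 H → ∀ x y : Fin m, ∃ z, H.Adj x z ∧ z ≠ y

def ST_STAR : Prop :=
  ∀ (m : ℕ) (H : SimpleGraph (Fin m)), C3 H → Star H

/-- one step of the forcing theorem: link the edge `uv` to the edge `u0 v0` with sign `s` -/
def ST_FORCE1 : Prop :=
  ∀ (m : ℕ) (H : SimpleGraph (Fin m)), C3 H → (∀ (N : ℕ) (s : Bool), Snd H N s) →
    ∀ (V : Type) [Finite V] (G : SimpleGraph V) (u v u0 v0 : V) (s : Bool),
      G.Adj u v → G.Adj u0 v0 → u ≠ u0 → u ≠ v0 → v ≠ u0 → v ≠ v0 →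
    ∃ (V' : Type) (_ : Finite V') (G' : SimpleGraph V') (i : V → V'), Function.Injective i ∧
      (∀ x y, G'.Adj (i x) (i y) ↔ G.Adj x y) ∧
      (∀ c : Sym2 V → Bool, Good H G c → ((c s(u, v) = c s(u0, v0)) ↔ s = true) →
        ∃ e : Sym2 V' → Bool, Good H G' e ∧ ∀ x y, G.Adj x y → e s(i x, i y) = c s(x, y)) ∧
      (∀ e : Sym2 V' → Bool, Good H G' e → Good H G (pb e i) ∧
        ((e s(i u, i v) = e s(i u0, i v0)) ↔ s = true))

/-- the conclusion of the forcing theorem for `H` -/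
def Force {m : ℕ} (H : SimpleGraph (Fin m)) : Prop :=
  ∀ (V : Type) [Finite V] (C : SimpleGraph V) (κ : Sym2 V → Bool), Good H C κ →
    ∃ (V' : Type) (_ : Finite V') (G' : SimpleGraph V') (i : V → V'), Function.Injective i ∧
      (∀ x y, G'.Adj (i x) (i y) ↔ C.Adj x y) ∧
      (∃ e : Sym2 V' → Bool, Good H G' e ∧ ∀ x y, C.Adj x y → e s(i x, i y) = κ s(x, y)) ∧
      (∀ e : Sym2 V' → Bool, Good H G' e →
        (∀ x y, C.Adj x y → e s(i x, i y) = κ s(x, y)) ∨
        (∀ x y, C.Adj x y → e s(i x, i y) = !κ s(x, y)))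

def ST_FORCE : Prop :=
  ∀ (m : ℕ) (H : SimpleGraph (Fin m)), C3 H → (∀ (N : ℕ) (s : Bool), Snd H N s) → Force H

/-! ## Sparse hypergraphs that are not 2-colourable -/

/-- every nonempty subfamily with at most `r` members has a member with at most one shared point -/
def Sparse {E K L : Type} (r : ℕ) (lam : E → K → L) : Prop :=
  ∀ F : Finset E, F.Nonempty → F.card ≤ r → ∃ α ∈ F, ∀ β ∈ F, ∀ β' ∈ F, β ≠ α → β' ≠ α →
    ∀ k k' l l' : K, lam α k = lam β l → lam α k' = lam β' l' → k = k'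

/-- two members with at most one shared point -/
def ST_TWO : Prop :=
  ∀ (E K L : Type) (r : ℕ) (lam : E → K → L), (∀ α, Function.Injective (lam α)) →
    Sparse r lam → ∀ F : Finset E, 2 ≤ F.card → F.card ≤ r →
    ∃ α₁ ∈ F, ∃ α₂ ∈ F, α₁ ≠ α₂ ∧ ∀ α, α = α₁ ∨ α = α₂ →
      ∀ β ∈ F, ∀ β' ∈ F, β ≠ α → β' ≠ α →
      ∀ k k' l l' : K, lam α k = lam β l → lam α k' = lam β' l' → k = k'

/-- existence of `K`-uniform `r`-sparse hypergraphs that are not 2-colourable -/
def HYP (r : ℕ) : Prop :=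
  ∀ (K : Type) [Finite K], ∃ (E L : Type) (_ : Finite E) (_ : Finite L) (lam : E → K → L),
    (∀ α, Function.Injective (lam α)) ∧ Sparse r lam ∧
    ∀ χ : L → Bool, ∃ α, ∀ k k', χ (lam α k) = χ (lam α k')

/-- `a`-partite system; colourings constant on each part of index at least `i` have a
monochromatic hyperedge -/
def Sys (K : Type) (r a i : ℕ) : Prop :=
  ∃ (E L : Type) (_ : Finite E) (_ : Finite L) (lam : E → K → L) (π : L → ℕ),
    (∀ l, π l < a) ∧ (∀ α, Function.Injective fun k => π (lam α k)) ∧ Sparse r lam ∧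
    ∀ χ : L → Bool, (∀ l l', π l = π l' → i ≤ π l → χ l = χ l') →
      ∃ α, ∀ k k', χ (lam α k) = χ (lam α k')

def ST_HB : Prop := HYP 1

def ST_H0 : Prop := ∀ (K : Type) [Finite K] (r : ℕ), ∃ a : ℕ, Sys K r a 0

def ST_HS : Prop :=
  ∀ (K : Type) [Finite K] (r a i : ℕ), 1 ≤ r → HYP r → Sys K (r + 1) a i →
    Sys K (r + 1) a (i + 1)

def ST_HYP : Prop := ∀ r : ℕ, HYP r

/-! ## Stars glued along a hypergraph -/

/-- the leaves of the star -/
abbrev Lf {V : Type} (X : SimpleGraph V) (x : V) : Type := {y : V // X.Adj x y}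

/-- the other vertices -/
abbrev Pv {V : Type} (X : SimpleGraph V) (x : V) : Type := {y : V // y ≠ x ∧ ¬ X.Adj x y}

open Classical in
/-- the piece with index `α`: the centre goes to `none`, the leaf `k` to the point `lam α k` -/
noncomputable def emb {V E L : Type} (X : SimpleGraph V) (x : V) (lam : E → Lf X x → L) (α : E)
    (v : V) : Option (L ⊕ (E × Pv X x)) :=
  if h : v = x then none
  else if h' : X.Adj x v then some (Sum.inl (lam α ⟨v, h'⟩))
  else some (Sum.inr (α, ⟨v, h, h'⟩))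

/-- the union of the pieces -/
def Yg {V E L : Type} (X : SimpleGraph V) (x : V) (lam : E → Lf X x → L) :
    SimpleGraph (Option (L ⊕ (E × Pv X x))) where
  Adj u w := u ≠ w ∧ ∃ (α : E) (a b : V), X.Adj a b ∧ emb X x lam α a = u ∧ emb X x lam α b = w
  symm := ⟨fun _ _ h => ⟨h.1.symm, by
    obtain ⟨_, α, a, b, hab, h1, h2⟩ := h
    exact ⟨α, b, a, hab.symm, h2, h1⟩⟩⟩
  loopless := ⟨fun _ h => h.1 rfl⟩

/-- every copy of `H` in the union of the pieces lies in one piece -/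
def ST_YLOC : Prop :=
  ∀ (m : ℕ) (H : SimpleGraph (Fin m)), C3 H →
    ∀ (V E L : Type) (X : SimpleGraph V) (x : V) (lam : E → Lf X x → L),
      (∀ α, Function.Injective (lam α)) → Sparse (m * m) lam →
      ∀ f, Copy H (Yg X x lam) f → ∃ (α : E) (g : Fin m → V), Copy H X g ∧
        ∀ z, f z = emb X x lam α (g z)

/-- gluing colourings of the pieces -/
def ST_YCOL : Prop :=
  ∀ (V E L : Type) (X : SimpleGraph V) (x : V) (lam : E → Lf X x → L),
    (∀ α, Function.Injective (lam α)) → Sparse 2 lam →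
    ∀ c : E → Sym2 V → Bool,
      (∀ α β (k k' : Lf X x), lam α k = lam β k' → c α s(x, k.1) = c β s(x, k'.1)) →
      ∃ C : Sym2 (Option (L ⊕ (E × Pv X x))) → Bool, ∀ α a b, X.Adj a b →
        C s(emb X x lam α a, emb X x lam α b) = c α s(a, b)

def ST_CRIT : Prop :=
  ∀ (m : ℕ) (H : SimpleGraph (Fin m)), C3 H → Star H → HYP (m * m) → AdjNeg H

/-! ## The reduction -/

/-- `Γ` with a new vertex `none` joined to the vertices satisfying `P` -/
def Apx {V : Type} (Γ : SimpleGraph V) (P : V → Prop) : SimpleGraph (Option V) where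
  Adj u w := match u, w with
    | some a, some b => Γ.Adj a b
    | some a, none => P a
    | none, some b => P b
    | none, none => False
  symm := ⟨fun u w h => by
    cases u <;> cases w
    · exact h
    · exact h
    · exact h
    · exact SimpleGraph.Adj.symm (G := Γ) h⟩
  loopless := ⟨fun u h => by
    cases u
    · exact h
    · exact Γ.loopless.irrefl _ h⟩

/-- an `H`-free graph with `2δ-1` independent vertices all of whose `δ`-subsets are critical -/
def Crit {m : ℕ} (H : SimpleGraph (Fin m)) [DecidableRel H.Adj] : Prop :=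
  ∃ (V : Type) (_ : Finite V) (Γ : SimpleGraph V) (w : Fin (2 * (H.minDegree - 1) + 1) → V),
    Function.Injective w ∧ (∀ i j, ¬ Γ.Adj (w i) (w j)) ∧ (∀ f, ¬ Copy H Γ f) ∧
    ∀ T : Finset (Fin (2 * (H.minDegree - 1) + 1)), T.card = H.minDegree →
      ∃ f, Copy H (Apx Γ (fun v => ∃ k ∈ T, v = w k)) f

open Classical in
/-- 3-connected graphs with a critical configuration are 2-Ramsey-simple -/
def ST_FIN : Prop :=
  ∀ (m : ℕ) (H : SimpleGraph (Fin m)), C3 H → Force H → Crit H →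
    sInf (Pool.Agent.Helper58.RS.DSet H) = 2 * (H.minDegree - 1) + 1

end Pool.Agent.Helper77.SND
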