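import Pool.Agent.Helper67.RS3.DEG
import Pool.Agent.Helper94.RS3.GL4
import Pool.Agent.Helper67.RS3.SEP3
import Pool.Agent.Helper61.RS3.RAMS
import Pool.Agent.Helper79.RS3.GL2
import Pool.Agent.Helper95.RS3.FORCE1
import Pool.Agent.Helper83.RS3.HB
import Pool.Agent.Helper67.RS3.H0
import Pool.Agent.Helper58.RS3.FORCE
import Pool.Agent.Helper7.RS3.HYP
import Pool.Agent.Helper82.RS3.FIN
import Pool.Agent.Helper72.RS3.YCOL
import Pool.Agent.Helper25.RS3.CHAIN
import Pool.Agent.Helper8.RS3.CRIT
import Pool.Agent.Helper49.RS3.STAR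
import Pool.Agent.Helper44.RS3.TWO
import Pool.Agent.Helper8.RS3.YLOC
import Pool.Agent.Helper85.RS3.GLUE
import Pool.Agent.Helper59.RS3.HS

/-!
# Signal senders for 3-connected graphs: assembly

`snd_all`: every 3-connected graph has exact signal senders of arbitrary height and both signs.
`force_all`: every good coloured graph can be forced.
`simple_of_crit`: a 3-connected graph with a critical configuration is 2-Ramsey-simple.
-/

set_option autoImplicit false

namespace Pool.Agent.Helper77.SND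

theorem adjNeg_all {m : ℕ} (H : SimpleGraph (Fin m)) (hC : C3 H) : AdjNeg H :=
  st_CRIT st_YLOC st_YCOL m H hC (st_STAR st_RAMS st_DEG m H hC)
    (st_HYP st_HB st_H0 (st_HS st_TWO) (m * m))

theorem snd_all {m : ℕ} (H : SimpleGraph (Fin m)) (hC : C3 H) (N : ℕ) (s : Bool) : Snd H N s :=
  st_CHAIN (st_GL2 st_GLUE) m H hC (adjNeg_all H hC) N s

theorem force_all {m : ℕ} (H : SimpleGraph (Fin m)) (hC : C3 H) : Force H :=
  st_FORCE (st_FORCE1 (st_GL4 st_GLUE)) m H hC (snd_all H hC)

open Classical in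
theorem simple_of_crit {m : ℕ} (H : SimpleGraph (Fin m)) (h3 : ThreeConn H) (hc : Crit H) :
    sInf (Pool.Agent.Helper58.RS.DSet H) = 2 * (H.minDegree - 1) + 1 :=
  st_FIN st_GLUE m H (st_SEP3 m H h3) (force_all H (st_SEP3 m H h3)) hc

end Pool.Agent.Helper77.SND
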